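import Pool.Agent.Q193.ZS.Basic

/-!
# Extensions of simple `Z*`-algebras

Let `0 → J → A → C → 0` be an extension of C*-algebras with `J` and `C` both `Z*` and `C` simple.
Then `A` is `Z*`. In particular an extension of a simple `Z*`-algebra by a simple `Z*`-algebra is
`Z*`, which answers the question affirmatively; simplicity of the ideal is not needed.
-/

set_option autoImplicit false

namespace Pool.Agent.Results.MP_6f16c7_an.Extensions

open Pool.Agent.Q193.ZS

universe u v w

/-- A C*-algebra is simple if it is nonzero and its only closed two-sided ideals are `0` and the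
whole algebra. -/
def IsSimpleCStar (C : Type*) [NonUnitalCStarAlgebra C] : Prop :=
  (∃ c : C, c ≠ 0) ∧
    ∀ I : Submodule ℂ C, IsClosed (I : Set C) → (∀ a : C, ∀ x ∈ I, a * x ∈ I ∧ x * a ∈ I) →
      I = ⊥ ∨ I = ⊤

/-- in a simple C*-algebra the sums of products `p c q` are dense -/
lemma dense_of_simple {C : Type*} [NonUnitalCStarAlgebra C] (hC : IsSimpleCStar C) {c : C}
    (hc : c ≠ 0) (d : C) :
    d ∈ closure (Submodule.span ℂ {e : C | ∃ p q : C, e = p * c * q} : Set C) := by
  let S : Submodule ℂ C := Submodule.span ℂ {e : C | ∃ p q : C, e = p * c * q}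
  have hS : ∀ a : C, ∀ x ∈ S, a * x ∈ S ∧ x * a ∈ S := by
    intro a x hx
    induction hx using Submodule.span_induction with
    | mem e he =>
      obtain ⟨p, q, rfl⟩ := he
      exact ⟨Submodule.subset_span ⟨a * p, q, by simp only [mul_assoc]⟩,
        Submodule.subset_span ⟨p, q * a, by simp only [mul_assoc]⟩⟩
    | zero => rw [mul_zero, zero_mul]; exact ⟨S.zero_mem, S.zero_mem⟩
    | add x y _ _ hx hy =>
      rw [mul_add, add_mul]
      exact ⟨S.add_mem hx.1 hy.1, S.add_mem hx.2 hy.2⟩
    | smul r x _ hx =>
      rw [mul_smul_comm, smul_mul_assoc]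
      exact ⟨S.smul_mem _ hx.1, S.smul_mem _ hx.2⟩
  have hcl : ∀ a : C, ∀ x ∈ S.topologicalClosure, a * x ∈ S.topologicalClosure ∧
      x * a ∈ S.topologicalClosure := by
    intro a x hx
    have h1 : Continuous fun y : C => a * y := continuous_const.mul continuous_id
    have h2 : Continuous fun y : C => y * a := continuous_id.mul continuous_const
    exact ⟨map_mem_closure (f := fun y : C => a * y) h1 hx fun y hy => (hS a y hy).1,
      map_mem_closure (f := fun y : C => y * a) h2 hx fun y hy => (hS a y hy).2⟩
  rcases hC.2 S.topologicalClosure S.isClosed_topologicalClosure hcl with h | h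
  · exfalso
    have hmem : star c * c * star c ∈ S.topologicalClosure :=
      S.le_topologicalClosure (Submodule.subset_span ⟨star c, star c, rfl⟩)
    rw [h, Submodule.mem_bot] at hmem
    have h1 : star (star c * c) * (star c * c) = 0 := by
      rw [star_mul, star_star, ← mul_assoc, hmem, zero_mul]
    have h2 := (CStarRing.star_mul_self_eq_zero_iff _).mp h1
    exact hc ((CStarRing.star_mul_self_eq_zero_iff _).mp h2)
  · have : d ∈ S.topologicalClosure := by rw [h]; trivial
    exact this

/-- Extensions `0 → J → A → C → 0` with `J` a `Z*`-algebra and `C` a simple `Z*`-algebra are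
`Z*`-algebras. -/
theorem result (J : Type u) (A : Type v) (C : Type w) [NonUnitalCStarAlgebra J]
    [NonUnitalCStarAlgebra A] [NonUnitalCStarAlgebra C]
    (i : J →⋆ₙₐ[ℂ] A) (p : A →⋆ₙₐ[ℂ] C) (hi : Function.Injective i) (hp : Function.Surjective p)
    (hex : ∀ a : A, p a = 0 ↔ ∃ j : J, i j = a)
    (hJ : IsZStar J) (hC : IsZStar C) (hCs : IsSimpleCStar C) : IsZStar A := by
  intro z
  by_contra hz
  set a : A := star z * z with ha
  have hnz : ∀ y : A, a * y = 0 → y = 0 := by
    intro y hy
    by_contra hy0
    exact hz ⟨y, hy0, Or.inl hy⟩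
  -- an element `x` outside the ideal with `a x` in the ideal
  obtain ⟨c, hc, hac⟩ : ∃ c : C, c ≠ 0 ∧ p a * c = 0 := by
    have hpa : p a = star (p z) * p z := by rw [ha, map_mul, map_star]
    obtain ⟨y, hy, h | h⟩ := hC (p z)
    · exact ⟨y, hy, by rw [hpa]; exact h⟩
    · refine ⟨star y, star_ne_zero.mpr hy, ?_⟩
      have := congrArg star h
      rw [star_mul, star_self, star_zero] at this
      rw [hpa]
      exact this
  obtain ⟨x, rfl⟩ := hp c
  -- `a` lies in the closed span of the ideal and of all `u x v`
  let S : Set A := {e | (∃ u v : A, e = u * x * v) ∨ ∃ j : J, e = i j}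
  have hmem : a ∈ closure (Submodule.span ℂ S : Set A) := by
    have hd := dense_of_simple hCs hc (p a)
    have hpc : Continuous p :=
      AddMonoidHomClass.continuous_of_bound p 1 fun a => by
        rw [one_mul]; exact NonUnitalStarAlgHom.norm_apply_le p a
    let P : A →L[ℂ] C :=
      { toFun := p
        map_add' := map_add p
        map_smul' := fun r a => by rw [map_smul]; rfl
        cont := hpc }
    obtain ⟨K, hK, hlift⟩ := P.exists_preimage_norm_le hp
    rw [Metric.mem_closure_iff]
    intro ε hε
    obtain ⟨e, he, hde⟩ := Metric.mem_closure_iff.mp hd (ε / K) (by positivity)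
    have hle : ∀ e ∈ Submodule.span ℂ {e : C | ∃ r s : C, e = r * p x * s},
        ∃ b ∈ Submodule.span ℂ S, p b = e := by
      intro e he
      induction he using Submodule.span_induction with
      | mem e he =>
        obtain ⟨r, s, rfl⟩ := he
        obtain ⟨u, rfl⟩ := hp r
        obtain ⟨v, rfl⟩ := hp s
        exact ⟨u * x * v, Submodule.subset_span (Or.inl ⟨u, v, rfl⟩), by rw [map_mul, map_mul]⟩
      | zero => exact ⟨0, Submodule.zero_mem _, map_zero p⟩
      | add e f _ _ he hf =>
        obtain ⟨b, hb, rfl⟩ := he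
        obtain ⟨d, hd, rfl⟩ := hf
        exact ⟨b + d, Submodule.add_mem _ hb hd, map_add p b d⟩
      | smul r e _ he =>
        obtain ⟨b, hb, rfl⟩ := he
        exact ⟨r • b, Submodule.smul_mem _ _ hb, map_smul p r b⟩
    obtain ⟨b, hb, rfl⟩ := hle e he
    obtain ⟨y, hy, hyn⟩ := hlift (p a - p b)
    change p y = p a - p b at hy
    have hker : p (a - b - y) = 0 := by rw [map_sub, map_sub, hy, sub_self]
    obtain ⟨j, hj⟩ := (hex _).mp hker
    refine ⟨b + i j, Submodule.add_mem _ hb (Submodule.subset_span (Or.inr ⟨j, rfl⟩)), ?_⟩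
    rw [dist_eq_norm]
    have : a - (b + i j) = y := by rw [hj]; abel
    rw [this]
    rw [dist_eq_norm] at hde
    calc ‖y‖ ≤ K * ‖p a - p b‖ := hyn
      _ < K * (ε / K) := by gcongr
      _ = ε := by field_simp
  have hne : S.Nonempty := ⟨i 0, Or.inr ⟨0, rfl⟩⟩
  obtain ⟨g, hg, hga⟩ := exists_seq hne hmem
  -- a sequence in the ideal whose common annihilator kills everything
  have hseq : ∀ n, ∃ j : J, ∀ y : J, j * y = 0 → g n * i y = 0 := by
    intro n
    rcases hg n with ⟨u, v, huv⟩ | ⟨j, hj⟩
    · have hker : p (a * x * v) = 0 := by rw [map_mul, map_mul, hac, zero_mul]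
      obtain ⟨j, hj⟩ := (hex _).mp hker
      refine ⟨j, fun y hy => ?_⟩
      have h1 : a * (x * v * i y) = 0 := by
        rw [← mul_assoc, ← mul_assoc, ← hj, ← map_mul, hy, map_zero]
      have h2 := hnz _ h1
      rw [huv, mul_assoc u, mul_assoc u, h2, mul_zero]
    · exact ⟨j, fun y hy => by rw [hj, ← map_mul, hy, map_zero]⟩
  choose j hj using hseq
  obtain ⟨y, hy, hjy⟩ := exists_right hJ j
  have hkill : ∀ b ∈ closure (Submodule.span ℂ (Set.range g) : Set A), b * i y = 0 := by
    have hcl : IsClosed {b : A | b * i y = 0} :=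
      isClosed_eq (continuous_id.mul continuous_const) continuous_const
    have hsub : (Submodule.span ℂ (Set.range g) : Set A) ⊆ {b : A | b * i y = 0} := by
      intro b hb
      change b * i y = 0
      rw [SetLike.mem_coe] at hb
      induction hb using Submodule.span_induction with
      | mem b hb => obtain ⟨n, rfl⟩ := hb; exact hj n y (hjy n)
      | zero => rw [zero_mul]
      | add b d _ _ hb hd => rw [add_mul, hb, hd, add_zero]
      | smul r b _ hb => rw [smul_mul_assoc, hb, smul_zero]
    exact fun b hb => (hcl.closure_subset_iff.mpr hsub) hb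
  have h0 := hnz _ (hkill a hga)
  exact hy (hi (by rw [h0, map_zero]))

end Pool.Agent.Results.MP_6f16c7_an.Extensions
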